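import Pool.Agent.U724.BL.Main

/-!
# MP_a09a03_nt: Beilinson's conjecture for products: reduction to products of `i` factors

For a smooth projective variety `Z` over `ℚ` let `d = dim Z + 1` and
`ρ^i : M^(2 d - 1 - i)(Z) ⟶ D^(2 d - 1 - i)(Z)` the regulator of the question. In these degrees and
weights the Deligne cohomology is the homology `H_i(Z(ℂ), ℝ)` with an action of the complex
conjugation, `D^(2 d - 1 - i)(Z) ≅ H_i(Z(ℂ), ℝ(1)) ^ +` (up to normalization of the twist), because
`F ^ d H^(2 d - 2 - i)_dR(Z) = 0`.

Theorem. Let `i ≥ 0` and let `X_1, X_2, …` be geometrically connected smooth projective varieties.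

(1) There are numbers `κ(L), γ(L) ∈ {0, 1, …, ∞}` for the finite lists `L` of varieties, with
`γ(L) = 0` if `L` has more than `i` members, such that for all products

`dim ker ρ^i (X_1 × ⋯ × X_n) = ∑_L κ(L)`, `dim coker ρ^i (X_1 × ⋯ × X_n) = ∑_L γ(L)`,

where `L` runs through the `2 ^ n` sublists of `X_1, …, X_n`.

(2) **If `ρ^i` is surjective for all products of at most `i` of the varieties `X_1, …, X_n`
(repetitions only as in the list) then `ρ^i` is surjective for `X_1 × ⋯ × X_n`.** In particular
`ρ^i` is surjective for all powers of `X` if it is surjective for `X ^ i`; `ρ^1` is surjective for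
all products of varieties for which it is surjective, for example for all products of elliptic curves
over `ℚ`.

(3) Suppose that part (a) of the question holds for `X ^ i`, that is, `ρ^i` is bijective for `X ^ i`.
Then it holds for all powers of `X` if and only if `dim ker ρ^i (X ^ n) < binom (n, i + 1)` for
infinitely many `n`, and ONE such inequality gives part (a) for all `X ^ m` with `m ≤ n - i - 1`.
Since `ρ^i` is surjective for all `X ^ n`, and `dim D^(2 d - 1 - i)(X ^ n)` is a known polynomial in `n`
of degree at most `i`, these are inequalities for `dim M^(2 d - 1 - i)(X ^ n)`.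

The setting. `C` is the category of the smooth projective varieties over `ℚ` with the groups
`CH_(dim Z)(Z × W) ⊗ ℝ` as groups of morphisms from `Z` to `W` (covariant correspondences of degree `0`).
`M(Z) = M^(2 dim Z + 1 - i)(Z)` (the integral part, an additive functor by Beilinson and Scholl)
and `D(Z) = D^(2 dim Z + 1 - i)(Z)` are covariant additive functors, and the regulator `r` is a
natural transformation. The unit object `Spec ℚ` is a direct summand of each `X` by a zero-cycle of
degree one with rational coefficients. The hypothesis `hdeg` says that `D(Z)` depends on the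
homology of degree `i` only: the product of the projectors to the reduced motives of
`X_1, …, X_k` is zero on `H_i(X_1 × ⋯ × X_k)` for `k > i` (Künneth). The theorem is proved for all
categories, functors and natural transformations of this kind.

Idea of the proof. The cross effects of the functors `ker r` and `coker r`, as for polynomial functors:
the one for `coker r` and more than `i` varieties is a quotient of that of `D`, which is zero.
-/

set_option autoImplicit false

open CategoryTheory MonoidalCategory Module Filter
open Pool.Agent.U724.BL

namespace Pool.Agent.Results.MP_a09a03_nt.ProductsReduction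

universe v u t x

/-- Kernels and cokernels of the regulators on products of varieties. -/
theorem result {C : Type u} [Category.{v} C] [Preadditive C] [MonoidalCategory C]
    [MonoidalPreadditive C] {Λ : Type t} [Field Λ] (M D : C ⥤ ModuleCat.{x} Λ) [M.Additive]
    [D.Additive] (r : M ⟶ D) (i : ℕ)
    (hdeg : ∀ L : List (Pointed C), i < L.length → D.map (redL L) = 0) :
    (∃ κ γ : List (Pointed C) → ℕ∞, ∀ L : List (Pointed C),
      kerL r L = ((List.sublists' L).map κ).sum ∧
      cokerL r L = ((List.sublists' L).map γ).sum ∧ (i < L.length → γ L = 0)) ∧
    (∀ L : List (Pointed C), (∀ L' : List (Pointed C), L'.Sublist L → L'.length ≤ i →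
      Function.Surjective (r.app (prodL L')).hom) → Function.Surjective (r.app (prodL L)).hom) ∧
    ∀ X : Pointed C, Function.Bijective (r.app (prodL (powL X i))).hom →
      (∀ m n : ℕ, m + i + 1 ≤ n → kerL r (powL X n) < (n.choose (i + 1) : ℕ) →
        Function.Bijective (r.app (prodL (powL X m))).hom) ∧
      ((∃ᶠ n : ℕ in atTop, kerL r (powL X n) < (n.choose (i + 1) : ℕ)) ↔
        ∀ n, Function.Bijective (r.app (prodL (powL X n))).hom) :=
  prod_law r i hdeg

end Pool.Agent.Results.MP_a09a03_nt.ProductsReduction
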